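import Mathlib

/-!
# A two-circulant-core Hadamard matrix of order 28 that is not cocyclic

We exhibit circulant `±1` matrices `A, B` of order `13` such that the two-circulant-core
matrix `H(A, B)` of order `28` is a Hadamard matrix which is not equivalent to any cocyclic
matrix.  This disproves the statement that every two-circulant-core Hadamard matrix is cocyclic.

Idea of the proof.  For a row `i` of a `±1` matrix `H` let `profile H i` be the number of
triples `(j, k, l)` of rows with `|∑ c, H i c * H j c * H k c * H l c| = 20`.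
For a cocyclic matrix this number does not depend on `i`, and it is transported by Hadamard
equivalence.  For the matrix below it is `78` for the first row and `54` for the third one.
-/

open Matrix

namespace Pool.Agent.Results.MP_e1608d_co.NotAlwaysCocyclic

/-- Hadamard equivalence: `K` is obtained from `H` by permuting rows, permuting columns and
multiplying rows and columns by `-1`. -/
def HadamardEquivalent {n m : Type*} (H : Matrix n n ℤ) (K : Matrix m m ℤ) : Prop :=
  ∃ (r c : m ≃ n) (ε δ : m → ℤˣ), ∀ i j, K i j = (ε i : ℤ) * (δ j : ℤ) * H (r i) (c j)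

/-- `ψ` is a 2-cocycle of the group `G` with values in `{1, -1}`. -/
def IsTwoCocycle {G : Type*} [Group G] (ψ : G → G → ℤˣ) : Prop :=
  ∀ g h k : G, ψ g h * ψ (g * h) k = ψ h k * ψ g (h * k)

/-- The `G`-cocyclic matrix `[ψ(g, h)]`, with rows and columns indexed by `G`. -/
def cocyclicMatrix {G : Type*} (ψ : G → G → ℤˣ) : Matrix G G ℤ :=
  Matrix.of fun g h => (ψ g h : ℤ)

/-- The matrix `H` is cocyclic: it is equivalent to a Hadamard matrix `[ψ(g, h)]` for some
finite group `G` and some 2-cocycle `ψ : G × G → {1, -1}`. -/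
def IsCocyclic {n : Type*} (H : Matrix n n ℤ) : Prop :=
  ∃ (G : Type) (_ : Group G) (_ : Fintype G) (_ : DecidableEq G) (ψ : G → G → ℤˣ),
    IsTwoCocycle ψ ∧ (cocyclicMatrix ψ).IsHadamard ∧ HadamardEquivalent H (cocyclicMatrix ψ)

/-- The `2 × 2ℓ` upper right block of the two-circulant-core matrix, with rows `(jᵀ, jᵀ)` and
`(jᵀ, -jᵀ)`. -/
def border (ℓ : ℕ) : Matrix (Fin 2) (Fin ℓ ⊕ Fin ℓ) ℤ :=
  Matrix.of fun i => Sum.elim (fun _ => 1) (fun _ => if i = 0 then 1 else -1)

/-- The two-circulant-core matrix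
```
-1 -1  jᵀ  jᵀ
-1  1  jᵀ -jᵀ
 j  j  A   B
 j -j  Bᵀ -Aᵀ
```
of order `2 + 2ℓ`. -/
def twoCore {ℓ : ℕ} (A B : Matrix (Fin ℓ) (Fin ℓ) ℤ) :
    Matrix (Fin 2 ⊕ (Fin ℓ ⊕ Fin ℓ)) (Fin 2 ⊕ (Fin ℓ ⊕ Fin ℓ)) ℤ :=
  Matrix.fromBlocks !![-1, -1; -1, 1] (border ℓ) (border ℓ)ᵀ (Matrix.fromBlocks A B Bᵀ (-Aᵀ))

/-- `A` and `B` are circulant `±1` matrices of odd order `ℓ` with
`A Aᵀ + B Bᵀ = 2(ℓ+1) I - 2J`. -/
structure IsCorePair {ℓ : ℕ} (A B : Matrix (Fin ℓ) (Fin ℓ) ℤ) : Prop where
  odd : Odd ℓ
  circulant_left : ∃ a : Fin ℓ → ℤ, A = circulant a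
  circulant_right : ∃ b : Fin ℓ → ℤ, B = circulant b
  entries_left : ∀ i j, A i j = 1 ∨ A i j = -1
  entries_right : ∀ i j, B i j = 1 ∨ B i j = -1
  gram : A * Aᵀ + B * Bᵀ =
    (2 * ((ℓ : ℤ) + 1)) • (1 : Matrix (Fin ℓ) (Fin ℓ) ℤ) - (2 : ℤ) • Matrix.of fun _ _ => 1

/-! ### The invariant -/

section invariant

variable {n m : Type*} [Fintype n] [Fintype m]

/-- The product sum of four rows. -/
def quad (H : Matrix n n ℤ) (i j k l : n) : ℤ := ∑ c, H i c * H j c * H k c * H l c

/-- The number of triples of rows whose product sum with row `i` is `±20`. -/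
def profile (H : Matrix n n ℤ) (i : n) : ℕ :=
  ∑ j : n, ∑ k : n, ∑ l : n, if |quad H i j k l| = 20 then 1 else 0

theorem abs_units (u : ℤˣ) : |(u : ℤ)| = 1 := by
  rcases Int.units_eq_one_or u with h | h <;> simp [h]

theorem units_sq' (u : ℤˣ) : (u : ℤ) * (u : ℤ) = 1 := by
  rcases Int.units_eq_one_or u with h | h <;> simp [h]

theorem profile_of_equivalent {H : Matrix n n ℤ} {K : Matrix m m ℤ} {r c : m ≃ n}
    {ε δ : m → ℤˣ} (h : ∀ i j, K i j = (ε i : ℤ) * (δ j : ℤ) * H (r i) (c j)) (i : m) :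
    profile K i = profile H (r i) := by
  have hq : ∀ i j k l : m, |quad K i j k l| = |quad H (r i) (r j) (r k) (r l)| := by
    intro i j k l
    have h1 : quad K i j k l =
        ((ε i : ℤ) * (ε j : ℤ) * (ε k : ℤ) * (ε l : ℤ)) * quad H (r i) (r j) (r k) (r l) := by
      unfold quad
      rw [← Equiv.sum_comp c (fun x => H (r i) x * H (r j) x * H (r k) x * H (r l) x),
        Finset.mul_sum]
      refine Finset.sum_congr rfl fun x _ => ?_
      rw [h, h, h, h]
      have hd := units_sq' (δ x)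
      calc _ = ((δ x : ℤ) * (δ x : ℤ)) * ((δ x : ℤ) * (δ x : ℤ)) *
            ((ε i : ℤ) * (ε j : ℤ) * (ε k : ℤ) * (ε l : ℤ) *
              (H (r i) (c x) * H (r j) (c x) * H (r k) (c x) * H (r l) (c x))) := by ring
        _ = _ := by rw [hd]; ring
    rw [h1, abs_mul, abs_mul, abs_mul, abs_mul, abs_units, abs_units, abs_units, abs_units]
    simp
  unfold profile
  rw [← Equiv.sum_comp r (fun j => ∑ k : n, ∑ l : n, if |quad H (r i) j k l| = 20 then 1 else 0)]
  refine Finset.sum_congr rfl fun j _ => ?_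
  rw [← Equiv.sum_comp r (fun k => ∑ l : n, if |quad H (r i) (r j) k l| = 20 then 1 else 0)]
  refine Finset.sum_congr rfl fun k _ => ?_
  rw [← Equiv.sum_comp r (fun l => if |quad H (r i) (r j) (r k) l| = 20 then 1 else 0)]
  refine Finset.sum_congr rfl fun l _ => ?_
  rw [hq]

theorem profile_cocyclic {G : Type*} [Group G] [Fintype G] {ψ : G → G → ℤˣ}
    (hψ : IsTwoCocycle ψ) (g x : G) :
    profile (cocyclicMatrix ψ) g = profile (cocyclicMatrix ψ) (g * x) := by
  refine profile_of_equivalent (H := cocyclicMatrix ψ) (K := cocyclicMatrix ψ)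
    (r := Equiv.mulRight x) (c := Equiv.mulLeft x⁻¹) (ε := fun a => ψ a x)
    (δ := fun b => ψ x (x⁻¹ * b)) (fun a b => ?_) g
  have h := hψ a x (x⁻¹ * b)
  simp only [mul_inv_cancel_left] at h
  have h2 : ψ a b = ψ a x * ψ x (x⁻¹ * b) * ψ (a * x) (x⁻¹ * b) := by
    have h3 : ψ x (x⁻¹ * b) * ψ x (x⁻¹ * b) = 1 := by
      rcases Int.units_eq_one_or (ψ x (x⁻¹ * b)) with h | h <;> simp [h]
    calc ψ a b = (ψ x (x⁻¹ * b) * ψ x (x⁻¹ * b)) * ψ a b := by rw [h3, one_mul]
      _ = ψ x (x⁻¹ * b) * (ψ a x * ψ (a * x) (x⁻¹ * b)) := by rw [h, mul_assoc]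
      _ = _ := by
        rw [mul_comm (ψ a x) (ψ x (x⁻¹ * b)), mul_assoc]
  simp only [cocyclicMatrix, Matrix.of_apply, Equiv.coe_mulRight, Equiv.coe_mulLeft]
  rw [h2]
  push_cast
  ring

theorem profile_const_of_isCocyclic {H : Matrix n n ℤ} (h : IsCocyclic H) (i j : n) :
    profile H i = profile H j := by
  obtain ⟨G, _, _, _, ψ, hψ, -, r, c, ε, δ, he⟩ := h
  have h1 := profile_of_equivalent he (r.symm i)
  have h2 := profile_of_equivalent he (r.symm j)
  rw [Equiv.apply_symm_apply] at h1 h2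
  rw [← h1, ← h2, profile_cocyclic hψ (r.symm i) ((r.symm i)⁻¹ * r.symm j), mul_inv_cancel_left]

end invariant

/-! ### The explicit matrix of order 28 -/

/-- First circulant generator. -/
def a₀ : Fin 13 → ℤ := ![-1, -1, 1, 1, -1, 1, -1, -1, 1, -1, 1, 1, 1]

/-- Second circulant generator. -/
def b₀ : Fin 13 → ℤ := ![-1, -1, -1, -1, 1, -1, 1, 1, 1, -1, 1, 1, 1]

/-- The explicit two-circulant-core matrix of order 28. -/
abbrev H₀ : Matrix (Fin 2 ⊕ (Fin 13 ⊕ Fin 13)) (Fin 2 ⊕ (Fin 13 ⊕ Fin 13)) ℤ :=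
  twoCore (circulant a₀) (circulant b₀)

theorem isCorePair₀ : IsCorePair (circulant a₀) (circulant b₀) where
  odd := by decide
  circulant_left := ⟨a₀, rfl⟩
  circulant_right := ⟨b₀, rfl⟩
  entries_left := fun i j => (by decide : ∀ k, a₀ k = 1 ∨ a₀ k = -1) (i - j)
  entries_right := fun i j => (by decide : ∀ k, b₀ k = 1 ∨ b₀ k = -1) (i - j)
  gram := by decide +kernel

/-- The index type of `H₀`. -/
abbrev I : Type := Fin 2 ⊕ (Fin 13 ⊕ Fin 13)

/-- The position of a row or column index. -/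
def pos : I → ℕ :=
  Sum.elim (fun i => i.val) (Sum.elim (fun i => 2 + i.val) (fun i => 15 + i.val))

/-- The rows as bit masks (bit `1` for the entry `-1`). -/
def masks : List ℕ :=
  [3, 268402689, 243845956, 219256460, 170110232, 71817776, 143602788, 18802888, 37573012,
   75113260, 150226520, 32017588, 64035176, 128070352, 256140704, 244713662, 221024634,
   173646578, 78890466, 157748166, 47093642, 94187282, 188374562, 108313670, 216627338,
   164819222, 61202990, 122373214]

/-- The bit mask of a row. -/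
def mask (i : I) : ℕ := masks.getD (pos i) 0

/-- The sign of a bit. -/
def sgn (b : Bool) : ℤ := if b then -1 else 1

theorem sgn_xor (a b : Bool) : sgn (a ^^ b) = sgn a * sgn b := by
  cases a <;> cases b <;> rfl

/-- The entries of `H₀`. -/
def entry (i c : I) : ℤ := H₀ i c

theorem entry_eq : ∀ i c : I, entry i c = sgn ((mask i).testBit (pos c)) := by
  decide +kernel

theorem H₀_apply (i c : I) : H₀ i c = sgn ((mask i).testBit (pos c)) := entry_eq i c

/-- The sum of the signs of the `28` lowest bits. -/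
def signSum (x : ℕ) : ℤ := ∑ c : I, sgn (x.testBit (pos c))

theorem quad_H₀ (i j k l : I) :
    quad H₀ i j k l = signSum (mask i ^^^ mask j ^^^ mask k ^^^ mask l) := by
  unfold quad signSum
  refine Finset.sum_congr rfl fun c _ => ?_
  rw [H₀_apply, H₀_apply, H₀_apply, H₀_apply, Nat.testBit_xor, Nat.testBit_xor, Nat.testBit_xor,
    sgn_xor, sgn_xor, sgn_xor]

/-- A table of the numbers of ones in the binary expansions of `0, …, 127`. -/
def tab : ℕ :=
  38688605477795291639177638255174619524745213742638081737860757693208305674782301095493395244431646846014899907793992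

/-- The number of ones in the binary expansion of `y < 128`. -/
def pop7 (y : ℕ) : ℕ := (tab >>> (3 * y)) % 8

/-- The number of ones among the `28` lowest bits. -/
def pop (x : ℕ) : ℕ :=
  pop7 (x % 128) + pop7 (x / 128 % 128) + pop7 (x / 16384 % 128) + pop7 (x / 2097152 % 128)

theorem signSum_eq_sum_range (x : ℕ) : signSum x = ∑ c ∈ Finset.range 28, sgn (x.testBit c) := by
  unfold signSum
  rw [Fintype.sum_sum_type, Fintype.sum_sum_type]
  simp only [pos, Sum.elim_inl, Sum.elim_inr]
  rw [Finset.sum_fin_eq_sum_range, Finset.sum_fin_eq_sum_range, Finset.sum_fin_eq_sum_range]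
  simp [Finset.sum_range_succ]
  ring

theorem pop7_spec : ∀ y < 128, (∑ c ∈ Finset.range 7, sgn (y.testBit c)) = 7 - 2 * (pop7 y : ℤ) := by
  decide +kernel

theorem signSum_eq (x : ℕ) : signSum x = 28 - 2 * (pop x : ℤ) := by
  have key : ∀ q : ℕ, ∀ c ∈ Finset.range 7, (x / 2 ^ q % 2 ^ 7).testBit c = x.testBit (q + c) := by
    intro q c hc
    rw [Nat.testBit_mod_two_pow, Nat.testBit_div_two_pow]
    simp [Finset.mem_range.1 hc, add_comm]
  have h : ∀ q : ℕ, (∑ c ∈ Finset.range 7, sgn (x.testBit (q + c))) =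
      7 - 2 * (pop7 (x / 2 ^ q % 2 ^ 7) : ℤ) := by
    intro q
    have h7 := pop7_spec (x / 2 ^ q % 2 ^ 7) (Nat.mod_lt _ (by norm_num))
    rw [← h7]
    exact Finset.sum_congr rfl fun c hc => by rw [key q c hc]
  have h0 := h 0
  have h1 := h 7
  have h2 := h 14
  have h3 := h 21
  rw [signSum_eq_sum_range]
  have hs : (∑ c ∈ Finset.range 28, sgn (x.testBit c)) =
      (∑ c ∈ Finset.range 7, sgn (x.testBit (0 + c))) +
      (∑ c ∈ Finset.range 7, sgn (x.testBit (7 + c))) +
      (∑ c ∈ Finset.range 7, sgn (x.testBit (14 + c))) +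
      (∑ c ∈ Finset.range 7, sgn (x.testBit (21 + c))) := by
    simp only [Finset.sum_range_succ, Finset.sum_range_zero, zero_add]
    norm_num
    ring
  rw [hs, h0, h1, h2, h3]
  unfold pop
  norm_num
  ring

/-- The test for a product sum equal to `±20`. -/
def test (x : ℕ) : ℕ := if pop x = 4 ∨ pop x = 24 then 1 else 0

theorem test_spec (i j k l : I) : (if |quad H₀ i j k l| = 20 then 1 else 0) =
    test (mask i ^^^ mask j ^^^ mask k ^^^ mask l) := by
  rw [quad_H₀, signSum_eq]
  unfold test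
  congr 1
  rw [abs_eq (by norm_num)]
  apply propext
  constructor <;> intro h <;> omega

theorem sum_getD (f : ℕ → ℕ) (l : List ℕ) :
    ∑ i ∈ Finset.range l.length, f (l.getD i 0) = (l.map f).sum := by
  induction l with
  | nil => simp
  | cons a l ih =>
    rw [List.length_cons, Finset.sum_range_succ', List.map_cons, List.sum_cons, ← ih, add_comm]
    simp

theorem sum_mask (f : ℕ → ℕ) : ∑ i : I, f (mask i) = (masks.map f).sum := by
  rw [Fintype.sum_sum_type, Fintype.sum_sum_type]
  simp only [mask, pos, Sum.elim_inl, Sum.elim_inr]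
  rw [Fin.sum_univ_eq_sum_range (fun i => f (masks.getD i 0)) 2,
    Fin.sum_univ_eq_sum_range (fun i => f (masks.getD (2 + i) 0)) 13,
    Fin.sum_univ_eq_sum_range (fun i => f (masks.getD (15 + i) 0)) 13, ← sum_getD]
  have h28 : masks.length = 2 + 13 + 13 := by decide
  rw [h28, Finset.sum_range_add, Finset.sum_range_add, add_assoc]

/-- A fast way of computing the profile. -/
def fastProfile (x : ℕ) : ℕ :=
  (masks.map fun y => (masks.map fun z => (masks.map fun w => test (x ^^^ y ^^^ z ^^^ w)).sum).sum).sum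

theorem profile_eq (i : I) : profile H₀ i = fastProfile (mask i) := by
  unfold profile fastProfile
  simp only [test_spec]
  rw [← sum_mask]
  refine Finset.sum_congr rfl fun j _ => ?_
  rw [← sum_mask]
  refine Finset.sum_congr rfl fun k _ => ?_
  rw [← sum_mask]

theorem profile_row_zero : profile H₀ (Sum.inl 0) = 78 := by
  rw [profile_eq]
  decide +kernel

theorem profile_row_two : profile H₀ (Sum.inr (Sum.inl 0)) = 54 := by
  rw [profile_eq]
  decide +kernel

theorem dot_H₀ (i j : I) : (H₀ * H₀ᴴ) i j = signSum (mask i ^^^ mask j) := by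
  rw [Matrix.mul_apply]
  unfold signSum
  refine Finset.sum_congr rfl fun c _ => ?_
  rw [Matrix.conjTranspose_apply, star_trivial, H₀_apply, H₀_apply, Nat.testBit_xor, sgn_xor]

theorem pop_xor : ∀ i j : I, pop (mask i ^^^ mask j) = if i = j then 0 else 14 := by
  decide +kernel

theorem mul_conjTranspose_H₀ : H₀ * H₀ᴴ = ((Fintype.card I : ℕ) : ℤ) • (1 : Matrix I I ℤ) := by
  ext i j
  rw [dot_H₀, signSum_eq, pop_xor, Matrix.smul_apply, Matrix.one_apply]
  have hc : Fintype.card I = 28 := by decide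
  rw [hc]
  by_cases h : i = j <;> simp [h]

theorem isHadamard_H₀ : H₀.IsHadamard := by
  refine Matrix.IsHadamard.of_mul_conjTranspose (fun i j => ?_) mul_conjTranspose_H₀ ?_
  · rw [Unitary.mem_iff_eq_one_or_eq_neg_one, H₀_apply]
    cases (mask i).testBit (pos j) <;> simp [sgn]
  · exact IsRegular.of_ne_zero (by simp)

/-- **There is a two-circulant-core Hadamard matrix that is not cocyclic.**
Here `ℓ = 13`, so that the matrix has order `28`. -/
theorem result : ∃ (ℓ : ℕ) (A B : Matrix (Fin ℓ) (Fin ℓ) ℤ),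
    IsCorePair A B ∧ (twoCore A B).IsHadamard ∧ ¬ IsCocyclic (twoCore A B) := by
  refine ⟨13, circulant a₀, circulant b₀, isCorePair₀, isHadamard_H₀, fun h => ?_⟩
  have := profile_const_of_isCocyclic h (Sum.inl 0) (Sum.inr (Sum.inl 0))
  rw [profile_row_zero, profile_row_two] at this
  omega

end Pool.Agent.Results.MP_e1608d_co.NotAlwaysCocyclic
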